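import Pool.Agent.Helper12.GM.Lib

/-!
# Module MULT: multiplicativity of the hitting kernels
-/

open scoped ENNReal Topology UpperHalfPlane MatrixGroups
open Filter UpperHalfPlane Real

namespace Pool.Agent.Helper12.GM

theorem mult_hasSum {ι : Type} (f g : ι → ℝ≥0∞) (c : ℝ≥0∞) (hc : c ≠ ∞)
    (h : ∑' y, f y * g y = c) :
    HasSum (fun y => (f y).toReal * (g y).toReal) c.toReal := by
  have h1 : ∑' y, f y * g y ≠ ∞ := by rw [h]; exact hc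
  have h2 := ENNReal.hasSum_toReal h1
  have h3 : ∑' y, (f y * g y).toReal = c.toReal := by
    rw [← ENNReal.tsum_toReal_eq (fun y => ENNReal.ne_top_of_tsum_ne_top h1 y), h]
  rw [h3] at h2
  have h4 : (fun y => (f y * g y).toReal) = fun y => (f y).toReal * (g y).toReal := by
    funext y
    rw [ENNReal.toReal_mul]
  rwa [h4] at h2

variable {Γ : Type} [Group Γ]

/-- trichotomy -/
theorem mult_bnd {X : Fuchs Γ} {κ : ℝ} {x : Γ} (h1 : x ∉ Lft X κ) (h2 : x ∉ Rgt X κ) :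
    x ∈ Bnd X κ := by
  simp only [Lft, Rgt, Set.mem_ofPred_eq, not_lt] at h1 h2
  simp only [Bnd, Set.mem_ofPred_eq]
  rw [abs_le]
  constructor <;> linarith

theorem mult_bnd_lft {X : Fuchs Γ} {κ : ℝ} {x : Γ} (h : x ∈ Bnd X κ) : x ∉ Lft X κ := by
  simp only [Bnd, Set.mem_ofPred_eq] at h
  simp only [Lft, Set.mem_ofPred_eq, not_lt]
  rw [abs_le] at h
  linarith [h.1]

theorem mult_bnd_rgt {X : Fuchs Γ} {κ : ℝ} {x : Γ} (h : x ∈ Bnd X κ) : x ∉ Rgt X κ := by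
  simp only [Bnd, Set.mem_ofPred_eq] at h
  simp only [Rgt, Set.mem_ofPred_eq, not_lt]
  rw [abs_le] at h
  linarith [h.2]

theorem mult_lft_rgt {X : Fuchs Γ} {κ : ℝ} (hκ : 0 ≤ κ) {x : Γ} (h : x ∈ Lft X κ) :
    x ∉ Rgt X κ := by
  simp only [Lft, Set.mem_ofPred_eq] at h
  simp only [Rgt, Set.mem_ofPred_eq, not_lt]
  have h1 : 0 < (X.M x • (I : ℍ)).im := (X.M x • (I : ℍ)).im_pos
  have h2 : 0 ≤ κ * (X.M x • (I : ℍ)).im := mul_nonneg hκ h1.le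
  linarith

/-- no jump from the left sector to the right sector -/
theorem mult_zero {X : NFuchs Γ} {Q : Geo Γ} {μ : PMF Γ} {K κ κ₂ Θ : ℝ}
    (D : Dom X Q μ K κ κ₂ Θ) {x w : Γ} (hx : x ∉ Rgt X.toFuchs κ) (hw : w ∈ Rgt X.toFuchs κ) :
    Gr μ (Lft X.toFuchs κ) x w = 0 := by
  by_contra hc
  obtain ⟨n, hn⟩ := exists_pw μ hc
  obtain ⟨p, hp0, hpn, hpΩ, hpμ⟩ := exists_path μ hn
  have key : ∀ i, i ≤ n → p i ∉ Rgt X.toFuchs κ := by
    intro i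
    induction i with
    | zero => intro _; rw [hp0]; exact hx
    | succ i _ =>
      intro hi
      have h1 := D.noj (p i) ((p i)⁻¹ * p (i + 1)) (hpμ i (by omega)) (hpΩ i (by omega))
      rwa [mul_inv_cancel_left] at h1
  exact key n le_rfl (hpn ▸ hw)

theorem mult_inv_lft {X : NFuchs Γ} {Q : Geo Γ} {μ : PMF Γ} {K κ κ₂ Θ : ℝ}
    (D : Dom X Q μ K κ κ₂ Θ) {a : Γ} (ha : a ∈ Pos X.toFuchs Θ) {x : Γ}
    (hx : x ∉ Rgt X.toFuchs κ) : a⁻¹ * x ∈ Lft X.toFuchs κ := by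
  by_contra hc
  have h1 := D.pos a ha _ hc
  rw [mul_inv_cancel_left] at h1
  exact hx h1

theorem mult_one {X : NFuchs Γ} {Q : Geo Γ} {μ : PMF Γ} {K κ κ₂ Θ : ℝ}
    (D : Dom X Q μ K κ κ₂ Θ) {a : Γ} (ha : a ∈ Pos X.toFuchs Θ) {b : Γ}
    (hb : b ∈ Pos X.toFuchs Θ) (x z : Bnd X.toFuchs κ) :
    ∑' y : Bnd X.toFuchs κ, Gr μ (Lft X.toFuchs κ) (a⁻¹ * x) y *
      Gr μ (Lft X.toFuchs κ) (b⁻¹ * y) z = Gr μ (Lft X.toFuchs κ) ((a * b)⁻¹ * x) z := by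
  set Ω : Set Γ := {w | b⁻¹ * w ∈ Lft X.toFuchs κ} with hΩ
  set A : Set Γ := (Lft X.toFuchs κ)ᶜ with hA
  have hsub : ∀ w, w ∉ Rgt X.toFuchs κ → w ∈ Ω := fun w hw => mult_inv_lft D hb hw
  have hdiff : Ω \ A = Lft X.toFuchs κ := by
    ext w
    simp only [hA, Set.mem_sdiff, Set.mem_compl_iff, not_not]
    constructor
    · exact fun h => h.2
    · exact fun h => ⟨hsub w (mult_lft_rgt D.κ0 h), h⟩
  have hl : ∀ u v : Γ, Gr μ (Lft X.toFuchs κ) (b⁻¹ * u) v = Gr μ Ω u (b * v) := by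
    intro u v
    have := Gr_left μ (Lft X.toFuchs κ) b (b⁻¹ * u) v
    rw [mul_inv_cancel_left] at this
    rw [← this]
  have hbz : b * (z : Γ) ∈ Rgt X.toFuchs κ := D.pos b hb _ (mult_bnd_lft z.2)
  have hax : a⁻¹ * (x : Γ) ∈ Lft X.toFuchs κ := mult_inv_lft D ha (mult_bnd_rgt x.2)
  have hR := Gr_res1 μ Ω A (a⁻¹ * (x : Γ)) (b * (z : Γ))
  rw [hdiff, mult_zero D (mult_lft_rgt D.κ0 hax) hbz, zero_add] at hR
  rw [mul_inv_rev, mul_assoc, hl, hR]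
  rw [tsum_subtype (Bnd X.toFuchs κ) (fun y => Gr μ (Lft X.toFuchs κ) (a⁻¹ * x) y *
      Gr μ (Lft X.toFuchs κ) (b⁻¹ * y) z)]
  refine tsum_congr fun y => ?_
  by_cases hy : y ∈ Bnd X.toFuchs κ
  · have hyR := mult_bnd_rgt hy
    rw [Set.indicator_of_mem hy, Set.indicator_of_mem (show y ∈ A ∩ Ω from
      ⟨mult_bnd_lft hy, hsub y hyR⟩), Gr_mem_ne μ (hsub y hyR), hl]
    intro e
    exact hyR (e ▸ hbz)
  · rw [Set.indicator_of_notMem hy]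
    by_cases hy2 : y ∈ A ∩ Ω
    · rw [Set.indicator_of_mem hy2]
      have hyR : y ∈ Rgt X.toFuchs κ := by
        by_contra hc
        exact hy (mult_bnd hy2.1 hc)
      rw [mult_zero D (mult_lft_rgt D.κ0 hax) hyR, zero_mul]
    · rw [Set.indicator_of_notMem hy2]

theorem mult_two {X : NFuchs Γ} {Q : Geo Γ} {μ : PMF Γ} {K κ κ₂ Θ : ℝ}
    (D : Dom X Q μ K κ κ₂ Θ) {a : Γ} (ha : a ∈ Pos X.toFuchs Θ) (x : Bnd X.toFuchs κ)
    (hx : (x : Γ) = 1) :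
    ∑' z : Bnd X.toFuchs κ, Gr μ (Lft X.toFuchs κ) (a⁻¹ * x) z *
      Gr μ Set.univ (z : Γ) 1 = Gr μ Set.univ 1 a := by
  set A : Set Γ := (Lft X.toFuchs κ)ᶜ with hA
  have hdiff : Set.univ \ A = Lft X.toFuchs κ := by
    ext w
    simp only [hA, Set.mem_sdiff, Set.mem_compl_iff, not_not, Set.mem_univ, true_and]
  have hax : a⁻¹ * (x : Γ) ∈ Lft X.toFuchs κ := mult_inv_lft D ha (mult_bnd_rgt x.2)
  have h1B : (1 : Γ) ∈ Bnd X.toFuchs κ := hx ▸ x.2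
  have hl : Gr μ Set.univ 1 a = Gr μ Set.univ (a⁻¹ * (x : Γ)) 1 := by
    rw [Gr_univ_eq, Gr_univ_eq μ (a⁻¹ * (x : Γ)), hx]
    simp
  have hR := Gr_res1 μ Set.univ A (a⁻¹ * (x : Γ)) 1
  rw [hdiff] at hR
  rw [hl, hR, tsum_subtype (Bnd X.toFuchs κ) (fun z => Gr μ (Lft X.toFuchs κ) (a⁻¹ * x) z *
      Gr μ Set.univ z 1)]
  classical
  have e1 : Gr μ (Lft X.toFuchs κ) (a⁻¹ * (x : Γ)) 1 =
      ∑' z, (if z = 1 then Gr μ (Lft X.toFuchs κ) (a⁻¹ * (x : Γ)) z else 0 : ℝ≥0∞) := by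
    rw [tsum_eq_single (1 : Γ)]
    · rw [if_pos rfl]
    · intro z hz
      rw [if_neg hz]
  rw [e1, ← ENNReal.tsum_add]
  refine tsum_congr fun z => ?_
  by_cases hz : z ∈ Bnd X.toFuchs κ
  · rw [Set.indicator_of_mem hz, Set.indicator_of_mem (show z ∈ A ∩ Set.univ from
      ⟨mult_bnd_lft hz, Set.mem_univ z⟩)]
    by_cases h1 : z = 1
    · subst h1
      rw [if_pos rfl, Gr_mem μ (1 : Γ) (Set.mem_univ (1 : Γ)), pw_zero_self, mul_add, mul_one]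
    · rw [if_neg h1, zero_add, Gr_mem_ne μ (Set.mem_univ z) h1]
  · have h1 : z ≠ 1 := by
      rintro rfl; exact hz h1B
    rw [Set.indicator_of_notMem hz, if_neg h1, zero_add]
    by_cases hy2 : z ∈ A ∩ Set.univ
    · rw [Set.indicator_of_mem hy2]
      have hyR : z ∈ Rgt X.toFuchs κ := by
        by_contra hc
        exact hz (mult_bnd hy2.1 hc)
      rw [mult_zero D (mult_lft_rgt D.κ0 hax) hyR, zero_mul]
    · rw [Set.indicator_of_notMem hy2]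

/-- **Module MULT** -/
theorem st_MULT : ST_MULT := by
  intro Γ _ X Q μ K κ κ₂ Θ D a ha
  constructor
  · intro b hb x z
    exact mult_hasSum (fun y : Bnd X.toFuchs κ => Gr μ (Lft X.toFuchs κ) (a⁻¹ * x) y)
      (fun y : Bnd X.toFuchs κ => Gr μ (Lft X.toFuchs κ) (b⁻¹ * y) z) _
      (D.wk.Gr_ne_top _ _ _) (mult_one D ha hb x z)
  · intro x hx
    exact mult_hasSum (fun z : Bnd X.toFuchs κ => Gr μ (Lft X.toFuchs κ) (a⁻¹ * x) z)
      (fun z : Bnd X.toFuchs κ => Gr μ Set.univ (z : Γ) 1) _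
      (D.wk.Gr_ne_top _ _ _) (mult_two D ha x hx)

end Pool.Agent.Helper12.GM
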