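import Pool.Agent.Helper16.GM.MULT
import Pool.Agent.Helper12.GM.LibF

/-!
# Module RHO: the Perron-Frobenius eigenvalue
-/

open scoped ENNReal Topology UpperHalfPlane MatrixGroups
open Filter UpperHalfPlane Real

namespace Pool.Agent.Helper12.GM

variable {Γ : Type} [Group Γ]

/-- elements of `Pos` have trace `> 2` in absolute value -/
theorem rho_trace {X : Fuchs Γ} {Θ : ℝ} {a : Γ} (ha : a ∈ Pos X Θ) :
    2 < |(X.M a).1.trace| := by
  obtain ⟨p, q, r, s, hp, hq, hr, hs, hqr, h⟩ := ha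
  have hdet : (X.M a).1.det = 1 := (X.M a).2
  have key : p * s - q * r = 1 ∧ |(X.M a).1.trace| = p + s := by
    rcases h with h | h
    · rw [h] at hdet ⊢
      rw [Matrix.det_fin_two_of] at hdet
      rw [Matrix.trace_fin_two_of]
      exact ⟨hdet, abs_of_pos (by linarith)⟩
    · rw [h] at hdet ⊢
      rw [Matrix.det_neg, Matrix.det_fin_two_of] at hdet
      rw [Matrix.trace_neg, Matrix.trace_fin_two_of, abs_neg]
      refine ⟨?_, abs_of_pos (by linarith)⟩
      simpa using hdet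
  rw [key.2]
  have h1 : 1 < p * s := by nlinarith [mul_pos hq hr]
  nlinarith [sq_nonneg (p - s), mul_pos hp hs]

theorem rho_lim {G : ℕ → ℝ} {ρ s C θ : ℝ} (hρ : 0 < ρ) (hs : 0 < s) (hθ0 : 0 ≤ θ) (hθ1 : θ < 1)
    (h1 : ∀ n, 1 ≤ n → (1 - C * θ ^ n) * (ρ ^ n * s) ≤ G n)
    (h2 : ∀ n, 1 ≤ n → G n ≤ (1 + C * θ ^ n) * (ρ ^ n * s)) :
    Tendsto (fun n : ℕ => Real.log (G n) / n) atTop (𝓝 (Real.log ρ)) := by
  have hθ : Tendsto (fun n : ℕ => C * θ ^ n) atTop (𝓝 0) := by
    simpa using (tendsto_pow_atTop_nhds_zero_of_lt_one hθ0 hθ1).const_mul C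
  have hq : Tendsto (fun n : ℕ => G n / (ρ ^ n * s)) atTop (𝓝 1) := by
    have l1 : Tendsto (fun n : ℕ => 1 - C * θ ^ n) atTop (𝓝 1) := by
      simpa using (tendsto_const_nhds (x := (1 : ℝ))).sub hθ
    have l2 : Tendsto (fun n : ℕ => 1 + C * θ ^ n) atTop (𝓝 1) := by
      simpa using (tendsto_const_nhds (x := (1 : ℝ))).add hθ
    refine tendsto_of_tendsto_of_tendsto_of_le_of_le' l1 l2 ?_ ?_
    · filter_upwards [eventually_ge_atTop 1] with n hn
      rw [le_div_iff₀ (by positivity)]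
      exact h1 n hn
    · filter_upwards [eventually_ge_atTop 1] with n hn
      rw [div_le_iff₀ (by positivity)]
      exact h2 n hn
  have hl : Tendsto (fun n : ℕ => Real.log (G n / (ρ ^ n * s))) atTop (𝓝 0) := by
    have := (Real.continuousAt_log (one_ne_zero)).tendsto.comp hq
    rwa [Real.log_one] at this
  have hpos : ∀ᶠ n : ℕ in atTop, 0 < G n / (ρ ^ n * s) :=
    (hq.eventually (lt_mem_nhds (show (0 : ℝ) < 1 by norm_num)))
  have hinv : Tendsto (fun n : ℕ => ((n : ℝ))⁻¹) atTop (𝓝 0) := tendsto_inv_atTop_nhds_zero_nat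
  have hf : Tendsto (fun n : ℕ => Real.log (G n / (ρ ^ n * s)) * ((n : ℝ))⁻¹ +
      (Real.log ρ + Real.log s * ((n : ℝ))⁻¹)) atTop (𝓝 (Real.log ρ)) := by
    have := (hl.mul hinv).add ((tendsto_const_nhds (x := Real.log ρ)).add
      ((tendsto_const_nhds (x := Real.log s)).mul hinv))
    simpa using this
  refine hf.congr' ?_
  filter_upwards [hpos, eventually_ge_atTop 1] with n hn hn1
  have hP : 0 < ρ ^ n * s := by positivity
  have hG : 0 < G n := by
    have := mul_pos hn hP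
    rwa [div_mul_cancel₀ _ hP.ne'] at this
  have hn0 : (n : ℝ) ≠ 0 := by
    have : (1 : ℝ) ≤ n := by exact_mod_cast hn1
    linarith
  rw [Real.log_div hG.ne' hP.ne', Real.log_mul (by positivity) hs.ne', Real.log_pow]
  field_simp
  ring

/-- the element `1` lies on the wall -/
theorem rho_one_mem (X : Fuchs Γ) {κ : ℝ} (hκ : 0 ≤ κ) : (1 : Γ) ∈ Bnd X κ := by
  simp only [Bnd, Set.mem_ofPred_eq]
  rw [X.act_one]
  simp only [I_re, I_im, abs_zero, mul_one]
  exact hκ

theorem rho_semi {X : Fuchs Γ} {Θ : ℝ} {a b : Γ} (ha : a ∈ Pos X Θ)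
    (hb : b ∈ Pos X Θ) : a * b ∈ Pos X Θ := by
  obtain ⟨p, q, r, s, hp, hq, hr, hs, hqr, h⟩ := ha
  obtain ⟨p', q', r', s', hp', hq', hr', hs', hqr', h'⟩ := hb
  have hdet : (X.M a).1.det = 1 := (X.M a).2
  have key : p * s - q * r = 1 := by
    rcases h with h | h
    · rw [h] at hdet
      rwa [Matrix.det_fin_two_of] at hdet
    · rw [h] at hdet
      rw [Matrix.det_neg, Matrix.det_fin_two_of] at hdet
      simpa using hdet
  refine ⟨p * p' + q * r', p * q' + q * s', r * p' + s * r', r * q' + s * s', by positivity,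
    by positivity, by positivity, by positivity, ?_, ?_⟩
  · have h1 : 1 ≤ p * s := by nlinarith [mul_pos hq hr]
    have h2 : q' * r' ≤ p * s * (q' * r') := by nlinarith [mul_pos hq' hr']
    have h3 : 0 < (p * q') * (r * p') := by positivity
    have h4 : 0 < (q * s') * (r * p') := by positivity
    have h5 : 0 < (q * s') * (s * r') := by positivity
    nlinarith
  · have hm : !![p, q; r, s] * !![p', q'; r', s'] =
        !![p * p' + q * r', p * q' + q * s'; r * p' + s * r', r * q' + s * s'] := by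
      rw [Matrix.mul_fin_two]
    rcases X.mul' a b with h1 | h1 <;> rcases h with h2 | h2 <;> rcases h' with h3 | h3
    · left; rw [h1]; show (X.M a).1 * (X.M b).1 = _; rw [h2, h3, hm]
    · right; rw [h1]; show (X.M a).1 * (X.M b).1 = _; rw [h2, h3, mul_neg, hm]
    · right; rw [h1]; show (X.M a).1 * (X.M b).1 = _; rw [h2, h3, neg_mul, hm]
    · left; rw [h1]; show (X.M a).1 * (X.M b).1 = _; rw [h2, h3, neg_mul_neg, hm]
    · right; rw [h1]; show -((X.M a).1 * (X.M b).1) = _; rw [h2, h3, hm]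
    · left; rw [h1]; show -((X.M a).1 * (X.M b).1) = _; rw [h2, h3, mul_neg, neg_neg, hm]
    · left; rw [h1]; show -((X.M a).1 * (X.M b).1) = _; rw [h2, h3, neg_mul, neg_neg, hm]
    · right; rw [h1]; show -((X.M a).1 * (X.M b).1) = _; rw [h2, h3, neg_mul_neg, hm]

theorem rho_pow {X : Fuchs Γ} {Θ : ℝ} {a : Γ} (ha : a ∈ Pos X Θ) (n : ℕ) (hn : 1 ≤ n) :
    a ^ n ∈ Pos X Θ := by
  induction n, hn using Nat.le_induction with
  | base => rwa [pow_one]
  | succ n _ ih => rw [pow_succ]; exact rho_semi ih ha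

/-- **Module RHO** -/
theorem st_RHO (hMULT : ST_MULT) (hTAU : ST_TAU) : ST_RHO := by
  intro Γ _ X Q μ K κ κ₂ Θ D hu a ha ρ v w hP
  obtain ⟨C', hC'⟩ := hu
  obtain ⟨C, θ, hC0, hθ0, hθ1, hasy⟩ := hP.asy
  have hG0 : Gr μ Set.univ 1 1 ≠ ∞ := D.wk.G0_ne_top
  have hG1 : 1 ≤ (Gr μ Set.univ (1 : Γ) 1).toReal := by
    have := one_le_Gr μ Set.univ (1 : Γ)
    rw [← ENNReal.toReal_one]
    exact ENNReal.toReal_mono hG0 this
  set o : Bnd X.toFuchs κ := ⟨1, rho_one_mem X.toFuchs D.κ0⟩ with ho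
  set g : Bnd X.toFuchs κ → ℝ := fun z => (Gr μ Set.univ (z : Γ) 1).toReal with hg
  have hgn : ∀ z, 0 ≤ g z := fun z => ENNReal.toReal_nonneg
  have hgb : ∀ z, g z ≤ (Gr μ Set.univ (1 : Γ) 1).toReal := fun z =>
    ENNReal.toReal_mono hG0 (Gr_le_G0 μ Set.univ _ _)
  -- positivity of `g`
  have hgp : ∀ z, 0 < g z := by
    intro z
    have h1 : a⁻¹ * (z : Γ) ∈ Lft X.toFuchs κ₂ := by
      refine D.pos₂ a ha _ ?_
      have hz := mult_bnd_rgt z.2
      simp only [Rgt, Set.mem_ofPred_eq, not_lt] at hz ⊢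
      refine hz.trans ?_
      have := (X.M (z : Γ) • (I : ℍ)).im_pos
      exact mul_le_mul_of_nonneg_right D.κκ this.le
    have h2 : a⁻¹ * (1 : Γ) ∈ Lft X.toFuchs κ₂ := by
      refine D.pos₂ a ha _ ?_
      have hz := mult_bnd_rgt (rho_one_mem X.toFuchs D.κ0)
      simp only [Rgt, Set.mem_ofPred_eq, not_lt] at hz ⊢
      refine hz.trans ?_
      have := (X.M (1 : Γ) • (I : ℍ)).im_pos
      exact mul_le_mul_of_nonneg_right D.κκ this.le
    obtain ⟨c, C₁, hc, hC₁, hlow⟩ := D.low _ h2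
    have h3 := (hlow _ h1).1
    have h4 : 0 < Gr μ (Lft X.toFuchs κ) (a⁻¹ * (z : Γ)) (a⁻¹ * 1) :=
      lt_of_lt_of_le (ENNReal.ofReal_pos.mpr (by positivity)) h3
    have h5 : 0 < Gr μ Set.univ (a⁻¹ * (z : Γ)) (a⁻¹ * 1) :=
      lt_of_lt_of_le h4 (Gr_mono μ (Set.subset_univ _) _ _)
    rw [Gr_left_univ] at h5
    exact ENNReal.toReal_pos h5.ne' (D.wk.Gr_ne_top _ _ _)
  -- the sum `S`
  have hwg : Summable fun z => w z * g z := by
    refine Summable.of_nonneg_of_le (fun z => mul_nonneg (hP.wnn z) (hgn z))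
      (fun z => mul_le_mul_of_nonneg_left (hgb z) (hP.wnn z)) (hP.wsum.mul_right _)
  set S : ℝ := ∑' z, w z * g z with hS
  have hSpos : 0 < S := by
    have hex : ∃ z, 0 < w z := by
      by_contra hc
      push Not at hc
      have h0 : ∀ z, w z * v z = 0 := fun z => by
        rw [le_antisymm (hc z) (hP.wnn z), zero_mul]
      have := hP.nrm
      simp only [h0, tsum_zero] at this
      exact zero_ne_one this
    obtain ⟨z, hz⟩ := hex
    exact hwg.tsum_pos (fun z => mul_nonneg (hP.wnn z) (hgn z)) z (mul_pos hz (hgp z))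
  set G : ℕ → ℝ := fun n => (Gr μ Set.univ 1 (a ^ n)).toReal with hGdef
  have hsum : ∀ n, 1 ≤ n → HasSum (fun z => kr X.toFuchs μ κ (a ^ n) o z * g z) (G n) :=
    fun n hn => (hMULT X Q μ K κ κ₂ Θ D (a ^ n) (rho_pow ha n hn)).2 o rfl
  have hlim := rho_lim (G := G) (ρ := ρ) (s := v o * S) (C := C) (θ := θ) hP.ρpos
    (mul_pos (hP.vpos o) hSpos) hθ0 hθ1
    (fun n hn => by
      have e : HasSum (fun z => (1 - C * θ ^ n) * (ρ ^ n * v o) * (w z * g z))
          ((1 - C * θ ^ n) * (ρ ^ n * v o) * S) := hwg.hasSum.mul_left _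
      have := hasSum_le (fun z => ?_) e (hsum n hn)
      · calc _ = (1 - C * θ ^ n) * (ρ ^ n * v o) * S := by ring
          _ ≤ _ := this
      · have h1 := (abs_le.mp (hasy n hn o z)).1
        have h2 : (1 - C * θ ^ n) * (ρ ^ n * (v o * w z)) ≤ kr X.toFuchs μ κ (a ^ n) o z := by
          linarith
        calc (1 - C * θ ^ n) * (ρ ^ n * v o) * (w z * g z) =
            (1 - C * θ ^ n) * (ρ ^ n * (v o * w z)) * g z := by ring
          _ ≤ _ := mul_le_mul_of_nonneg_right h2 (hgn z))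
    (fun n hn => by
      have e : HasSum (fun z => (1 + C * θ ^ n) * (ρ ^ n * v o) * (w z * g z))
          ((1 + C * θ ^ n) * (ρ ^ n * v o) * S) := hwg.hasSum.mul_left _
      have := hasSum_le (fun z => ?_) (hsum n hn) e
      · calc _ ≤ (1 + C * θ ^ n) * (ρ ^ n * v o) * S := this
          _ = _ := by ring
      · have h1 := (abs_le.mp (hasy n hn o z)).2
        have h2 : kr X.toFuchs μ κ (a ^ n) o z ≤ (1 + C * θ ^ n) * (ρ ^ n * (v o * w z)) := by
          linarith
        calc _ ≤ (1 + C * θ ^ n) * (ρ ^ n * (v o * w z)) * g z :=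
              mul_le_mul_of_nonneg_right h2 (hgn z)
          _ = _ := by ring)
  -- the length
  have hT := hTAU (X.M a) (rho_trace ha)
  have hL : ∀ n : ℕ, Q.L (a ^ n) = dist (I : ℍ) ((X.M a) ^ n • (I : ℍ)) := by
    intro n
    rw [D.hL]
    show dist (I : ℍ) (X.M (a ^ n) • (I : ℍ)) = _
    rcases X.toFuchs.M_pow a n with h | h
    · rw [h]
    · rw [h, neg_smul_H]
  have hGpos : ∀ᶠ n : ℕ in atTop, 0 < G n := by
    have hq : Tendsto (fun n : ℕ => C * θ ^ n) atTop (𝓝 0) := by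
      simpa using (tendsto_pow_atTop_nhds_zero_of_lt_one hθ0 hθ1).const_mul C
    filter_upwards [hq.eventually (gt_mem_nhds (show (0 : ℝ) < 1 by norm_num)),
      eventually_ge_atTop 1] with n hn hn1
    have hz := (abs_le.mp (hasy n hn1 o o)).1
    have e : HasSum (fun z => (1 - C * θ ^ n) * (ρ ^ n * v o) * (w z * g z))
          ((1 - C * θ ^ n) * (ρ ^ n * v o) * S) := hwg.hasSum.mul_left _
    have h3 := hasSum_le (fun z => ?_) e (hsum n hn1)
    · refine lt_of_lt_of_le ?_ h3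
      have h4 := hP.ρpos
      have h5 := hP.vpos o
      have h6 : 0 < 1 - C * θ ^ n := by linarith
      positivity
    · have h1 := (abs_le.mp (hasy n hn1 o z)).1
      have h2 : (1 - C * θ ^ n) * (ρ ^ n * (v o * w z)) ≤ kr X.toFuchs μ κ (a ^ n) o z := by
        linarith
      calc (1 - C * θ ^ n) * (ρ ^ n * v o) * (w z * g z) =
          (1 - C * θ ^ n) * (ρ ^ n * (v o * w z)) * g z := by ring
        _ ≤ _ := mul_le_mul_of_nonneg_right h2 (hgn z)
  have hinv : Tendsto (fun n : ℕ => ((n : ℝ))⁻¹) atTop (𝓝 0) := tendsto_inv_atTop_nhds_zero_nat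
  -- `-log F (a^n) / n → - log ρ`
  have hF : Tendsto (fun n : ℕ => -Real.log (Fh μ (a ^ n)) / n) atTop (𝓝 (-Real.log ρ)) := by
    have h1 : Tendsto (fun n : ℕ => -(Real.log (G n) / n) +
        Real.log ((Gr μ Set.univ (1 : Γ) 1).toReal) * ((n : ℝ))⁻¹) atTop (𝓝 (-Real.log ρ)) := by
      have := hlim.neg.add ((tendsto_const_nhds
        (x := Real.log ((Gr μ Set.univ (1 : Γ) 1).toReal))).mul hinv)
      simpa using this
    refine h1.congr' ?_
    filter_upwards [hGpos] with n hn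
    have e : Fh μ (a ^ n) = G n / (Gr μ Set.univ (1 : Γ) 1).toReal := by
      unfold Fh; rw [ENNReal.toReal_div]
    rw [e, Real.log_div hn.ne' (by linarith)]
    ring
  have hdiff : Tendsto (fun n : ℕ => uu Q (Fh μ) (a ^ n) / n) atTop (𝓝 0) := by
    have h1 : Tendsto (fun n : ℕ => C' * ((n : ℝ))⁻¹) atTop (𝓝 0) := by
      simpa using hinv.const_mul C'
    refine squeeze_zero_norm (fun n => ?_) h1
    rw [Real.norm_eq_abs, abs_div, Nat.abs_cast, div_eq_mul_inv]
    exact mul_le_mul_of_nonneg_right (hC' _) (by positivity)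
  have hfin : Tendsto (fun n : ℕ => -Real.log (Fh μ (a ^ n)) / n) atTop
      (𝓝 (2 * Real.log (lamb (X.M a)))) := by
    have h1 := hdiff.add hT
    rw [zero_add] at h1
    refine h1.congr fun n => ?_
    unfold uu
    rw [hL n]
    ring
  have heq := tendsto_nhds_unique hF hfin
  have hlamb : 0 < lamb (X.M a) := by
    unfold lamb
    have := rho_trace ha
    have := Real.sqrt_nonneg ((X.M a).1.trace ^ 2 - 4)
    linarith
  have h1 : Real.log ρ = Real.log (((lamb (X.M a))⁻¹) ^ 2) := by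
    rw [Real.log_pow, Real.log_inv]
    push_cast
    linarith
  exact Real.log_injOn_pos (Set.mem_Ioi.mpr hP.ρpos)
    (Set.mem_Ioi.mpr (by positivity)) h1

end Pool.Agent.Helper12.GM
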